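import Pool.Agent.K7.H1.LG.Toric

/-!
# A toric Landau-Ginzburg model of `F₁` violating `h_pr^{1,n-1}(X) = k_Y`

`X = F₁` is the blow-up of the projective plane at a point, `n = 2`, and
`f = x + xy + y + 1/(xy)` is the sum of the monomials of the primitive ray generators of its fan.

* `X = T_f` (first conjunct), `h^{1,1}(X) = 2` (second conjunct), and `π_f` is the regularized
  quantum period of `X` by Givental's formula (third conjunct);
* `f` has a Calabi-Yau compactification (fourth conjunct);
* in every Calabi-Yau compactification `(Y, w)` of `f` every fibre of `w` over a point of `ℂ` is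
  irreducible, so `k_Y = 0`, whereas `h^{1,1}(X) - 1 = 1` (last conjuncts).

Proof. The explicit compactification is the union of the torus and of four charts
`Spec ℂ[s, u, 1/(su - 1)]`, one for each edge of the Newton polygon; properness and separatedness
are checked on valuation rings, and `dx/x ∧ dy/y = ± ds ∧ du / (su - 1)` generates the canonical
module. Conversely let `(Y, w)` be any Calabi-Yau compactification with generator `ω`. Then
`ω = g dx/x ∧ dy/y` with `g` a unit of the ring of Laurent polynomials, so a monomial up to a
constant; properness along the four divisorial valuations `s = 0` shows that `g` is constant. The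
generic point of a component of a fibre is a discrete valuation ring (Krull's principal ideal
theorem and regularity). If it were not in the torus, `s` and `u - const` would both vanish there
for one of the four charts, so `ds ∧ du` would vanish in the canonical module, a contradiction. In
the torus the fibre is irreducible since `f - t` is a prime element for every `t`.
-/

set_option autoImplicit false

namespace Pool.Agent.Results.MP_02acd8_ag.IrreducibleFibresF1

open Pool.Agent.K7.H1.LG

theorem result :
    IsSmoothFanoPolygon raysF1 ∧ hodge11 raysF1 = 2 ∧
    (∀ k : ℕ, classicalPeriod (laurentOf raysF1) k = toricQuantumPeriod raysF1 k) ∧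
    (∃ Y, IsCYCompactification (laurentOf raysF1) Y) ∧
    ∀ Y, IsCYCompactification (laurentOf raysF1) Y →
      (∀ t : ℂ, (fibreComponents (laurentOf raysF1) Y t).ncard = 1) ∧
      kNumber (laurentOf raysF1) Y = 0 ∧ kNumber (laurentOf raysF1) Y ≠ hodge11 raysF1 - 1 := by
  refine ⟨polygonF1, hodge11_F1, period_eq raysF1, ⟨Y0, Y0_isCY toFun_F1⟩,
    fun Y hY => ⟨fibres_irreducible toFun_F1 hY, kNumber_eq toFun_F1 hY, ?_⟩⟩
  rw [hodge11_F1, kNumber_eq toFun_F1 hY]
  norm_num

end Pool.Agent.Results.MP_02acd8_ag.IrreducibleFibresF1
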